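import Pool.Agent.W909.RK10.Fin
import Pool.Agent.W909.RK.Conv

set_option autoImplicit false
open Finset

namespace Pool.Agent.W909.RK10

open Pool.Agent.W909.RK

theorem h3 : H3 (fun k => (wt k : ℝ) / ((10000000000000 : ℤ) : ℝ)) (((15491681092403 : ℤ) : ℝ) / (15 * ((10000000000000 : ℤ) : ℝ))) :=
  h3_of_avg wt 15491681092403 10000000000000 (by norm_num) fun V _ E hE hn => avg hE hn

theorem hp (m : ℕ) (h1 : 1 ≤ m) (h2 : m ≤ 10 + 1) :
    -(((10 + 1).choose 4 : ℝ) * ((m : ℝ) / ((10 : ℕ) + 1))) ≤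
      ∑ k ∈ range 5, ((m.choose k * (10 + 1 - m).choose (4 - k) : ℕ) : ℝ) *
        ((wt k : ℝ) / ((10000000000000 : ℤ) : ℝ)) := by
  simp only [sum_range_succ, sum_range_zero, wt]
  interval_cases m <;> norm_num [Nat.choose]

end Pool.Agent.W909.RK10
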