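import Pool.Agent.W909.RK10.Chk
import Pool.Agent.W909.RK10.Psd
import Pool.Agent.W846.K54.Leaf
import Pool.Agent.H122R2.N6.Bound
import Pool.Agent.W909.RK.Pop

/-! The inequality for 3-graphs. -/

set_option autoImplicit false
set_option maxRecDepth 100000
set_option maxHeartbeats 4000000
open Finset

namespace Pool.Agent.W909.RK10

open Pool.Agent.H122R2.N6 hiding TB tg walk walk_all chk chk_sound rep_good walk_good leaf_all
open Pool.Agent.W909.RK (pop4)
open Pool.Agent.W846.K54 (TB tg walk walk_all chk chk_sound rep_good walk_good leaf_all)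

theorem hc (b012 b013 b023 b123 b014 b024 b124 b034 b134 b234 : ℕ) (hb012 : Bt b012) (hb013 : Bt b013) (hb023 : Bt b023) (hb123 : Bt b123) (hb014 : Bt b014) (hb024 : Bt b024) (hb124 : Bt b124) (hb034 : Bt b034) (hb134 : Bt b134) (hb234 : Bt b234) (ht : tg b012 b013 b023 b123 b014 b024 b124 b034 b134 b234 = 4) :
    chk q4 q2 CST b012 b013 b023 b123 b014 b024 b124 b034 b134 b234 = true := by
  have h : part b012 b013 = true := by
    rcases hb012 with rfl | rfl <;> rcases hb013 with rfl | rfl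
    exacts [part00, part01, part10, part11]
  have h2 := (B2_true (B2_true (B2_true (B2_true (B2_true (B2_true (B2_true (B2_true h hb023) hb123) hb014) hb024) hb124) hb034) hb134) hb234)
  refine or_false_left h2 ?_
  rw [ht]
  rfl

theorem rng : (nall 16 fun c => and (Nat.blt (rho c) 5) (nall 64 fun i => Nat.blt (pc c i) 64)) = true := by
  decide +kernel

theorem rho_lt {c : ℕ} (h : c < 16) : rho c < 5 := by
  have := nall_true rng c h
  rw [Bool.and_eq_true] at this
  exact Nat.le_of_ble_eq_true this.1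

theorem pc_lt {c i : ℕ} (h : c < 16) (hi : i < 64) : pc c i < 64 := by
  have := nall_true rng c h
  rw [Bool.and_eq_true] at this
  exact Nat.le_of_ble_eq_true (nall_true this.2 i hi)

theorem g4_all {r i j : ℕ} (hr : r < 5) (hi : i < 64) (hj : j < 64) : g4 r i j = true := by
  have h : chk4 r = true := by
    interval_cases r
    exacts [cp0, cp1, cp2, cp3, cp4]
  exact nall_true (nall_true h i hi) j hj

theorem expand (s : Finset ℕ) (u v : ℕ → ℕ) (B : ℤ) :
    ∑ k ∈ s, ((1 : ℕ) : ℤ) * ((u k : ℤ) - B) * ((v k : ℤ) - B) =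
      ∑ k ∈ s, ((u k : ℤ) * (v k : ℤ)) + B ^ 2 * (s.card : ℤ)
        - B * (∑ k ∈ s, (u k : ℤ) + ∑ k ∈ s, (v k : ℤ)) := by
  rw [card_eq_sum_ones, Nat.cast_sum, mul_add, mul_sum, mul_sum, mul_sum, ← sum_add_distrib, ← sum_add_distrib, ← sum_sub_distrib]
  exact sum_congr rfl fun k _ => by push_cast; ring

theorem hq4 (c i j : ℕ) (hc : c < 16) (hi : i < 64) (hj : j < 64) : (q4 c i j : ℤ) =
    ∑ k ∈ range 64, ((1 : ℕ) : ℤ) * ((l4 (rho c) (pc c i) k : ℤ) - 8388608) *
      ((l4 (rho c) (pc c j) k : ℤ) - 8388608) + (0 + (tt (rho c) : ℤ)) := by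
  have h := Nat.eq_of_beq_eq_true (g4_all (rho_lt hc) (pc_lt hc hi) (pc_lt hc hj))
  unfold ll sl at h
  rw [nsum_eq, nsum_eq, nsum_eq] at h
  have h2 := congrArg (fun n : ℕ => (n : ℤ)) h
  simp only [Nat.add_eq, Nat.mul_eq] at h2
  push_cast at h2
  rw [expand (range 64) (fun k => l4 (rho c) (pc c i) k)
    (fun k => l4 (rho c) (pc c j) k) 8388608, card_range]
  have h3 : (q4 c i j : ℤ) = (tq (rho c) (pc c i) (pc c j) : ℤ) := rfl
  rw [h3]
  push_cast
  linarith

theorem hq2 (i j : ℕ) (hi : i < 16) (hj : j < 16) : (q2 i j : ℤ) =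
    ∑ k ∈ range 12, ((1 : ℕ) : ℤ) * ((l2 i k : ℤ) - 8388608) * ((l2 j k : ℤ) - 8388608) + 288230376151711744 := by
  have h := Nat.eq_of_beq_eq_true (nall_true (nall_true cpb i hi) j hj)
  unfold ll2 sl2 at h
  rw [nsum_eq, nsum_eq, nsum_eq] at h
  have h2 := congrArg (fun n : ℕ => (n : ℤ)) h
  simp only [Nat.add_eq, Nat.mul_eq] at h2
  push_cast at h2
  rw [expand (range 12) (fun k => l2 i k) (fun k => l2 j k) 8388608, card_range]
  push_cast
  linarith

/-- the weight of a quadruple by its number of edges -/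
def wt (k : ℕ) : ℤ :=
  if k = 0 then (-1250498770945) else if k = 1 then (-311627150761) else if k = 2 then (-7070678850421) else if k = 3 then (-5644480486288) else (-9999999996407)


theorem tt_all : (nall 16 fun c => Nat.beq (tt (rho c)) (Int.toNat (1152921504606846976 + wt (pop4 c)))) = true := by
  decide +kernel

theorem tt_eq {c : ℕ} (hc : c < 16) : (tt (rho c) : ℤ) = 1152921504606846976 + wt (pop4 c) := by
  have h := Nat.eq_of_beq_eq_true (nall_true tt_all c hc)
  rw [h, Int.toNat_of_nonneg]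
  unfold wt
  split_ifs <;> norm_num

theorem avg {V : Type} [Fintype V] {E : V → V → V → ℕ} (hE : Sy E) (hn : 0 < Fintype.card V) :
    15 * Sv E (fun c => wt (pop4 c)) ≤ -(15491681092403) * (Fintype.card V : ℤ) ^ 4 := by
  have hb := bound E hE 64 12 CST q4 (fun _ _ => 1) (fun c i k => l4 (rho c) (pc c i) k)
    q2 (fun _ => 1) l2 8388608 1152921504606846976 288230376151711744 (fun c => wt (pop4 c))
    (fun c i j h1 h2 h3 => by rw [hq4 c i j h1 h2 h3, tt_eq h1, zero_add]) hq2
    (leaf_all hE cs4 cs2 hc)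
  have hC : (CST : ℤ) = 30264174004248640717 := rfl
  rw [hC] at hb
  have hn' : (0 : ℤ) < (Fintype.card V : ℤ) ^ 2 := by positivity
  have h2 : (Fintype.card V : ℤ) ^ 2 * (15 * Sv E (fun c => wt (pop4 c)))
      ≤ (Fintype.card V : ℤ) ^ 2 * (-(15491681092403) * (Fintype.card V : ℤ) ^ 4) := by linarith
  exact le_of_mul_le_mul_left h2 hn'

end Pool.Agent.W909.RK10
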